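import Pool.Agent.helper91.HZF.Spec

set_option autoImplicit false

namespace Pool.Agent.HZF

open Finset Pool.Agent.helper38.Neg Pool.Agent.helper55.NT Pool.Agent.LN

theorem SPL_bit (L a b : ℕ) (ha : a < 2 ^ L) (hb : b < 2 ^ L) (h : a ≠ b) :
    ∃ t, t < L ∧ Nat.testBit a t ≠ Nat.testBit b t := by
  by_contra hcon
  push Not at hcon
  refine h (Nat.eq_of_testBit_eq ?_)
  intro t
  by_cases ht : t < L
  · exact hcon t ht
  · have h1 : 2 ^ L ≤ 2 ^ t := Nat.pow_le_pow_right (by norm_num) (by omega)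
    rw [Nat.testBit_lt_two_pow (lt_of_lt_of_le ha h1), Nat.testBit_lt_two_pow (lt_of_lt_of_le hb h1)]

theorem SPL : SPL_stmt := by
  intro n
  have hlt : n < 2 ^ (lg n + 1) := by
    have h1 : n + 2 < 2 ^ (lg n + 1) := Nat.lt_pow_succ_log_self (by norm_num) _
    omega
  refine ⟨fun x i => xor (Nat.testBit i.1 (x.1 / 2)) (decide (x.1 % 2 = 1)), ?_⟩
  intro i j hij
  obtain ⟨t, ht, hb⟩ := SPL_bit (lg n + 1) i.1 j.1 (lt_trans i.2 hlt) (lt_trans j.2 hlt)
    (fun h => hij (Fin.ext h))
  cases hi : Nat.testBit i.1 t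
  · have hj : Nat.testBit j.1 t = true := by
      cases hj : Nat.testBit j.1 t
      · rw [hi, hj] at hb
        exact absurd rfl hb
      · rfl
    refine ⟨⟨2 * t + 1, by omega⟩, ?_, ?_⟩
    · have h1 : (2 * t + 1) / 2 = t := by omega
      have h2 : (2 * t + 1) % 2 = 1 := by omega
      simp only [h1, h2, hi, decide_true, Bool.false_xor]
    · have h1 : (2 * t + 1) / 2 = t := by omega
      have h2 : (2 * t + 1) % 2 = 1 := by omega
      simp only [h1, h2, hj, decide_true, Bool.xor_self]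
  · have hj : Nat.testBit j.1 t = false := by
      cases hj : Nat.testBit j.1 t
      · rfl
      · rw [hi, hj] at hb
        exact absurd rfl hb
    refine ⟨⟨2 * t, by omega⟩, ?_, ?_⟩
    · have h1 : (2 * t) / 2 = t := by omega
      have h2 : (2 * t) % 2 = 0 := by omega
      simp only [h1, h2, hi]
      rfl
    · have h1 : (2 * t) / 2 = t := by omega
      have h2 : (2 * t) % 2 = 0 := by omega
      simp only [h1, h2, hj]
      rfl

end Pool.Agent.HZF
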